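import Pool.Agent.Helper25.HL.Goals4

/-!
# Project HL: the levels exist
-/

set_option autoImplicit false

open Filter Topology

noncomputable section

namespace Pool.Agent.Helper74.HL

open Pool.Agent.Helper25.HL

section

variable {P : ℕ → ℕ} {K η : ℕ → ℝ} {J₁ : ℕ → ℕ} (Q : Pos P K η J₁)

include Q

theorem a_lt_b (i : ℕ) : Q.a i < Q.b i := by
  rw [Q.hb i]
  omega

theorem a_mono : StrictMono Q.a :=
  strictMono_nat_of_lt_succ fun i => (a_lt_b Q i).trans (Q.hba i)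

theorem win_lt {i i' : ℕ} (h : i < i') : Q.b i < Q.a i' :=
  (Q.hba i).trans_le ((a_mono Q).monotone h)

theorem win_unique {i i' k : ℕ} (h1 : Q.a i ≤ k) (h2 : k < Q.b i) (h1' : Q.a i' ≤ k)
    (h2' : k < Q.b i') : i' = i := by
  rcases lt_trichotomy i i' with h | h | h
  · have := win_lt Q h
    omega
  · exact h.symm
  · have := win_lt Q h
    omega

theorem two_le_a (i : ℕ) : 2 ≤ Q.a i := Q.h2.trans ((a_mono Q).monotone (Nat.zero_le i))

theorem rho_pos (hP : ∀ k, 1 ≤ P k) (i : ℕ) : (0 : ℝ) < (Q.ρ i : ℝ) := by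
  have : 0 < Q.ρ i := by
    cases i with
    | zero =>
      rw [Q.hρ0]
      exact pow_pos (hP 1) 8
    | succ i =>
      rw [Q.hρ i]
      exact pow_pos (hP _) 8
  exact_mod_cast this

end

theorem lvx : S_LVX := by
  intro Ψ₀ hΨ₀ P K η J₁ Q hP1 hmono hg hs hP0
  have hP : ∀ k, 1 ≤ P k := fun k => by
    rw [← hP0]
    exact hmono.monotone (Nat.zero_le k)
  have hPr : ∀ k, (0 : ℝ) < (P k : ℝ) := fun k => by exact_mod_cast hP k
  have key : ∀ k, ∃ d : Lv (P k) (P (k + 1)),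
      (k ≤ 1 → d.J = 0) ∧ (k ≤ 1 → ∀ j, d.r j = 1) ∧
      (∀ i, Q.a i ≤ k → k < Q.b i → d.J = Q.Jw i) ∧
      (2 ≤ k → (∀ i, ¬ (Q.a i ≤ k ∧ k < Q.b i)) → d.J = k) ∧
      (∀ i, Q.a i ≤ k → k < Q.b i → ∀ j, d.r j =
        if j ≤ J₁ i + 1 then (Q.ρ i : ℝ) ^ j
        else (Q.ρ i : ℝ) ^ (J₁ i + 1) * (P (k - 1) : ℝ) ^ (8 * (j - (J₁ i + 1)))) ∧
      (2 ≤ k → (∀ i, ¬ (Q.a i ≤ k ∧ k < Q.b i)) → ∀ j,
        d.r j = (P (k - 1) : ℝ) ^ (8 * j)) ∧
      (2 ≤ k → P1 d.σ ∧ P2 d.σ) ∧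
      (∀ i, Q.a i ≤ k → k < Q.b i → ∀ θ : ℝ, Q.θ₀ i ≤ θ →
        NLP d.σ (1 + K i) (1 / (1 + K i)) ((Q.ρ i : ℝ) ^ (J₁ i)) (2 / 2 ^ (J₁ i)) θ) := by
    intro k
    by_cases hk : k ≤ 1
    · refine ⟨⟨fun _ _ => true, 0, fun _ => 1, fun _ => one_pos⟩, fun _ => rfl,
        fun _ _ => rfl, ?_, ?_, ?_, ?_, ?_, ?_⟩
      · intro i h1 _
        have := two_le_a Q i
        omega
      · intro h
        omega
      · intro i h1 _
        have := two_le_a Q i
        omega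
      · intro h
        omega
      · intro h
        omega
      · intro i h1 _
        have := two_le_a Q i
        omega
    · have hk2 : 2 ≤ k := by omega
      have hk1 : 1 ≤ k := by omega
      by_cases hw : ∃ i, Q.a i ≤ k ∧ k < Q.b i
      · obtain ⟨i, h1, h2⟩ := hw
        obtain ⟨σ, s1, s2, s3⟩ := Q.hnl i (P k) (P (k + 1))
          ((Q.hΨ i).trans (hmono.monotone h1)) (hg k hk1) (hs k hk1).le
        refine ⟨⟨σ, Q.Jw i, fun j => if j ≤ J₁ i + 1 then (Q.ρ i : ℝ) ^ j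
          else (Q.ρ i : ℝ) ^ (J₁ i + 1) * (P (k - 1) : ℝ) ^ (8 * (j - (J₁ i + 1))), ?_⟩,
          fun h => absurd h hk, fun h => absurd h hk, ?_, ?_, ?_, ?_, fun _ => ⟨s1, s2⟩, ?_⟩
        · intro j
          have hρ := rho_pos Q hP i
          have hp := hPr (k - 1)
          split_ifs
          · positivity
          · positivity
        · intro i' h1' h2'
          rw [win_unique Q h1 h2 h1' h2']
        · intro _ h
          exact absurd ⟨h1, h2⟩ (h i)
        · intro i' h1' h2' j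
          rw [win_unique Q h1 h2 h1' h2']
        · intro _ h
          exact absurd ⟨h1, h2⟩ (h i)
        · intro i' h1' h2'
          rw [win_unique Q h1 h2 h1' h2']
          exact s3
      · have hw' : ∀ i, ¬ (Q.a i ≤ k ∧ k < Q.b i) := fun i h => hw ⟨i, h⟩
        obtain ⟨σ, s1, s2⟩ := hΨ₀ (P k) (P (k + 1)) (hP1.trans (hmono.monotone hk1))
          (hg k hk1) (hs k hk1).le
        refine ⟨⟨σ, k, fun j => (P (k - 1) : ℝ) ^ (8 * j), fun j => pow_pos (hPr _) _⟩,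
          fun h => absurd h hk, fun h => absurd h hk, ?_, fun _ _ => rfl, ?_,
          fun _ _ _ => rfl, fun _ => ⟨s1, s2⟩, ?_⟩
        · intro i h1 h2
          exact absurd ⟨h1, h2⟩ (hw' i)
        · intro i h1 h2
          exact absurd ⟨h1, h2⟩ (hw' i)
        · intro i h1 h2
          exact absurd ⟨h1, h2⟩ (hw' i)
  choose D hD using key
  exact ⟨D, {
    hJ0 := fun k => (hD k).1
    hr0 := fun k => (hD k).2.1
    hJw := fun i k => (hD k).2.2.1 i
    hJb := fun k => (hD k).2.2.2.1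
    hrw := fun i k => (hD k).2.2.2.2.1 i
    hrb := fun k => (hD k).2.2.2.2.2.1
    h12 := fun k => (hD k).2.2.2.2.2.2.1
    hnl := fun i k => (hD k).2.2.2.2.2.2.2 i }⟩

end Pool.Agent.Helper74.HL
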